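import Pool.Agent.K1H72.CD.Stm

/-! Project CD (helper72), piece LAW: the law of the infinite configuration. -/

set_option autoImplicit false

namespace Pool.Agent.K1H1.CD

open Pool.Agent.K1H72.CD
open H974 H12S Finset MeasureTheory

theorem U_local {m : ℕ} {F S : Set Edg} (hS : (↑(boxE m) : Set Edg) \ {e1} ⊆ S) :
    U m F ↔ U m (F ∩ S) := by
  have h : ((F ∩ S) ∩ ↑(boxE m)) \ {e1} = (F ∩ ↑(boxE m)) \ {e1} := by
    ext x
    constructor
    · rintro ⟨⟨⟨h1, _⟩, h3⟩, h4⟩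
      exact ⟨⟨h1, h3⟩, h4⟩
    · rintro ⟨⟨h1, h3⟩, h4⟩
      exact ⟨⟨⟨h1, hS ⟨h3, h4⟩⟩, h3⟩, h4⟩
  unfold U
  rw [h]

theorem e1_mem {n : ℕ} (hn : 1 ≤ n) : e1 ∈ boxE n := by
  unfold e1 boxE
  rw [mem_RE_true]
  omega

theorem half_e1 {n : ℕ} (hn : 1 ≤ n) : PQ (1/2) (boxE n) (fun F => e1 ∉ F) = 1/2 := by
  unfold PQ
  rw [Pr_local (S' := {e1}) (Finset.singleton_subset_iff.mpr (e1_mem hn))
    (fun F _ => by simp)]
  unfold Pr
  have : ({e1} : Finset Edg) = insert e1 ∅ := rfl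
  rw [this, Ex_insert _ (Finset.notMem_empty _), Ex_empty, Ex_empty, ind_not_of (by simp),
    ind_of (by simp)]
  norm_num

theorem t_LAW : S_LAW := by
  intro m n hm hmn
  have hn : 1 ≤ n := hm.trans hmn
  have hbox := boxE_mono hmn
  have hset : {ω : sqLattice.edgeSet → Bool |
      ω (toE e1) = false ∧ U n (opn ω) ∧ ¬ U m (opn ω)} =
      {ω | (fun F : Finset Edg => e1 ∉ F ∧ (U n ↑F ∧ ¬ U m ↑F)) (FF (boxE n) ω)} := by
    ext ω
    have h1 : ω (toE e1) = false ↔ e1 ∉ FF (boxE n) ω := by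
      rw [mem_FF]
      constructor
      · rintro h ⟨_, h'⟩
        rw [h] at h'
        exact Bool.false_ne_true h'
      · intro h
        by_contra hc
        exact h ⟨e1_mem hn, by simpa using hc⟩
    have h2 : U n (opn ω) ↔ U n ↑(FF (boxE n) ω) := by
      rw [FF_coe]
      exact U_local Set.sdiff_subset
    have h3 : U m (opn ω) ↔ U m ↑(FF (boxE n) ω) := by
      rw [FF_coe]
      exact U_local (Set.sdiff_subset.trans (by exact_mod_cast hbox))
    show (_ ∧ _ ∧ _) ↔ (_ ∧ (_ ∧ _))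
    rw [h1, h2, h3]
  rw [hset]
  refine ⟨?_, meas_event (boxE n) (fun F : Finset Edg => e1 ∉ F ∧ (U n ↑F ∧ ¬ U m ↑F))⟩
  rw [law_event hlf (boxE n) (fun F : Finset Edg => e1 ∉ F ∧ (U n ↑F ∧ ¬ U m ↑F))]
  have hh : (fun _ : Edg => ((hlf : unitInterval) : ℝ)) = fun _ => (1/2 : ℝ) := rfl
  rw [hh]
  have hok : Ok (fun _ : Edg => (1/2 : ℝ)) := fun _ => by norm_num
  rw [Pr_indep (S := {e1}) (T := boxE n \ {e1})
    (Finset.singleton_subset_iff.mpr (e1_mem hn)) Finset.sdiff_subset Finset.disjoint_sdiff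
    (A := fun F => e1 ∉ F) (B := fun F => U n ↑F ∧ ¬ U m ↑F) (fun F _ => by simp) ?_]
  · have h1 : Pr (fun _ : Edg => (1/2 : ℝ)) (boxE n) (fun F => e1 ∉ F) = 1/2 := half_e1 hn
    have h2 : u n ≤ Pr (fun _ : Edg => (1/2 : ℝ)) (boxE n) (fun F => U n ↑F ∧ ¬ U m ↑F) +
        Pr (fun _ : Edg => (1/2 : ℝ)) (boxE n) (fun F => U m ↑F) := by
      refine le_trans ?_ (Pr_or_le hok _ _ _)
      exact Pr_mono hok (fun F _ h => by
        by_cases hm : U m ↑F
        · exact Or.inr hm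
        · exact Or.inl ⟨h, hm⟩)
    have h3 : Pr (fun _ : Edg => (1/2 : ℝ)) (boxE n) (fun F => U m ↑F) = u m := by
      rw [Pr_local hbox (fun F _ => by
        rw [Finset.coe_inter]
        exact U_local Set.sdiff_subset)]
      rfl
    rw [h1]
    rw [h3] at h2
    linarith
  · intro F _
    have e : (↑(F ∩ (boxE n \ {e1})) : Set Edg) = ↑F ∩ (↑(boxE n) \ {e1}) := by
      rw [Finset.coe_inter, Finset.coe_sdiff, Finset.coe_singleton]
    rw [e]
    have h2 : U n (↑F : Set Edg) ↔ U n (↑F ∩ (↑(boxE n) \ {e1})) := U_local subset_rfl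
    have h3 : U m (↑F : Set Edg) ↔ U m (↑F ∩ (↑(boxE n) \ {e1})) :=
      U_local (Set.sdiff_subset_sdiff_left (by exact_mod_cast hbox))
    rw [← h2, ← h3]

end Pool.Agent.K1H1.CD
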